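import Pool.Agent.Q98.SPN.Stm

/-!
# Project SPN (helper98), job GOOD: Markov inequality over the sign vectors
-/

set_option autoImplicit false

open scoped Matrix.Norms.L2Operator Matrix
open Finset

namespace Pool.Agent.Q223.SPN

open Pool.Agent.H172R2.GS (sg XX arrays)
open Pool.Agent.Q98.SPN

/-- **GOOD** -/
theorem GOOD_ok (h1 : S_SM) (h2 : S_WORD) (h3 : S_TKN) : S_GOOD := by
  classical
  intro ι _ _ d N hN κ hκ J _ _ hJ A hA
  set M : ℝ := (2 * Real.exp 1 * κ * Fintype.card J) ^ κ with hM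
  have hM0 : 0 ≤ M := by
    rw [hM]
    positivity
  have hN0 : 0 ≤ N := le_trans (by positivity) hN
  set f : (J → Bool) → ℝ := fun ε => ∑ i, (d i : ℝ) * tk κ (XX (fun g => A g i) ε) with hf
  have hf0 : ∀ ε, 0 ≤ f ε := fun ε =>
    Finset.sum_nonneg fun i _ => mul_nonneg (Nat.cast_nonneg _) (h3 _ _ _)
  have hsum : ∑ ε : J → Bool, f ε ≤ 2 ^ (Fintype.card J) * (N * M) := by
    have e1 : ∑ ε : J → Bool, f ε =
        ∑ i, (d i : ℝ) * ∑ ε : J → Bool, tk κ (XX (fun g => A g i) ε) := by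
      rw [hf, Finset.sum_comm]
      exact Finset.sum_congr rfl fun i _ => (Finset.mul_sum _ _ _).symm
    have e2 : ∀ i, (d i : ℝ) * ∑ ε : J → Bool, tk κ (XX (fun g => A g i) ε) ≤
        (d i : ℝ) ^ 2 * (2 ^ (Fintype.card J) * M) := by
      intro i
      have e3 := h2 J (d i) (fun g => A g i) κ fun g => hA g i
      have e4 := h1 J κ hJ hκ
      calc (d i : ℝ) * ∑ ε : J → Bool, tk κ (XX (fun g => A g i) ε)
          ≤ (d i : ℝ) * ((d i : ℝ) * ∑ ε : J → Bool, (∑ g, sg (ε g)) ^ (2 * κ)) :=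
            mul_le_mul_of_nonneg_left e3 (Nat.cast_nonneg _)
        _ ≤ (d i : ℝ) * ((d i : ℝ) * (2 ^ (Fintype.card J) * M)) := by
            refine mul_le_mul_of_nonneg_left (mul_le_mul_of_nonneg_left e4 (Nat.cast_nonneg _))
              (Nat.cast_nonneg _)
        _ = _ := by ring
    rw [e1]
    calc ∑ i, (d i : ℝ) * ∑ ε : J → Bool, tk κ (XX (fun g => A g i) ε)
        ≤ ∑ i, (d i : ℝ) ^ 2 * (2 ^ (Fintype.card J) * M) := Finset.sum_le_sum fun i _ => e2 i
      _ = ((∑ i, d i ^ 2 : ℕ) : ℝ) * (2 ^ (Fintype.card J) * M) := by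
          rw [← Finset.sum_mul]
          push_cast
          rfl
      _ ≤ N * (2 ^ (Fintype.card J) * M) :=
          mul_le_mul_of_nonneg_right hN (by positivity)
      _ = _ := by ring
  refine ⟨Finset.univ.filter fun ε => f ε ≤ 2 * N * M, ?_, fun ε hε => (Finset.mem_filter.1 hε).2⟩
  by_contra hcon
  push Not at hcon
  set B : Finset (J → Bool) := Finset.univ.filter fun ε => ¬ f ε ≤ 2 * N * M with hB
  have hcard : ((Finset.univ.filter fun ε : J → Bool => f ε ≤ 2 * N * M).card : ℝ) + B.card =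
      2 ^ (Fintype.card J) := by
    have := Finset.card_filter_add_card_filter_not (s := (Finset.univ : Finset (J → Bool)))
      (fun ε => f ε ≤ 2 * N * M)
    have h4 : (Finset.univ : Finset (J → Bool)).card = 2 ^ (Fintype.card J) := by
      rw [Finset.card_univ, Fintype.card_fun, Fintype.card_bool]
    rw [h4] at this
    exact_mod_cast this
  have hBc : (2 : ℝ) ^ (Fintype.card J) / 2 < B.card := by linarith
  have hBne : B.Nonempty := by
    rw [← Finset.card_pos]
    have : (0 : ℝ) < B.card := lt_trans (by positivity) hBc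
    exact_mod_cast this
  have h5 : ∑ ε ∈ B, (2 * N * M) < ∑ ε ∈ B, f ε :=
    Finset.sum_lt_sum_of_nonempty hBne fun ε hε => not_le.1 (Finset.mem_filter.1 hε).2
  have h6 : ∑ ε ∈ B, f ε ≤ ∑ ε, f ε :=
    Finset.sum_le_sum_of_subset_of_nonneg (Finset.subset_univ _) fun ε _ _ => hf0 ε
  rw [Finset.sum_const, nsmul_eq_mul] at h5
  have h7 : 0 ≤ N * M := mul_nonneg hN0 hM0
  nlinarith

end Pool.Agent.Q223.SPN
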